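import Pool.Agent.H75.Bunchy.Main
import Pool.Agent.H75.Bunchy.AMT

/-!
# MP_644d19_co, Q1: bunchy synchronizing factors when few full vertices are in conflict

`Pool.Agent.H75.Bunchy.isBunchy_iff` (in the file `AMT.lean`) shows that `IsBunchy` does not depend
on the choice of the minimal graph and of the right resolver onto it, and `exists_minimal`,
`Minimal.unique` are the theorem of Ashley, Marcus and Tuncel on `M(G)`.
-/

set_option autoImplicit false

namespace Pool.Agent.H75.Old.FewFullVertices

open Pool.Agent.H75.Bunchy

/-- Let `G` be strongly connected with a right resolver `Φ` onto a bunchy graph `B` (for example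
onto `B = M(G)` or onto `B = B(G)`). Suppose that for all vertices `I`, `J` of `B` with at least
two edges from `I` to `J` the pair `(I, J)` is good: at most three vertices over `I` are full, or
any two full vertices over `I` have a common follower, or one vertex over `I` has a common follower
over `J` with each full vertex, or all full vertices but one reach a common vertex along one vertex
sequence without repeated multiple edges. Then `G` has a bunchy synchronizing factor. -/
theorem result (G B : Graph) (hG : G.StronglyConnected) (hB : IsBunchy B) (Φ : RightResolver G B)
    (hgood : ∀ I J : B.V, 2 ≤ B.mult I J → Good Φ.v I J) :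
    ∃ H : Graph, IsBunchy H ∧ ∃ Ψ : RightResolver G H, Ψ.Synchronizing :=
  main G B hG hB Φ hgood

end Pool.Agent.H75.Old.FewFullVertices
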